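import Pool.Agent.U6.VE.Stm

/-!
Project VE, package L2: second moments of the mean of the exponential sum.
-/

set_option autoImplicit false

open MeasureTheory ProbabilityTheory Pool.Agent.U6.VE
open scoped BigOperators ENNReal NNReal

namespace Pool.Agent.U810.VE.L2

/-- the law of the points `n + t`, `n ∈ A` -/
noncomputable def muA (ν : ℕ → Measure ℝ) (A : Finset ℕ) : Measure ℝ :=
  ∑ n ∈ A, (ν n).map (fun t => (n : ℝ) + t)

lemma meas_shift (n : ℕ) : Measurable (fun t : ℝ => (n : ℝ) + t) := measurable_const_add _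

lemma fin_muA (D : ℝ≥0) (ν : ℕ → Measure ℝ) (h : Law D ν) (A : Finset ℕ) :
    IsFiniteMeasure (muA ν A) := by
  refine ⟨?_⟩
  unfold muA
  rw [Measure.finset_sum_apply]
  refine ENNReal.sum_lt_top.2 fun n _ => ?_
  have := h.prob n
  rw [Measure.map_apply (meas_shift n) MeasurableSet.univ]
  exact measure_lt_top _ _

lemma nu_le (D : ℝ≥0) (ν : ℕ → Measure ℝ) (h : Law D ν) (n : ℕ) (S : Set ℝ)
    (hS : MeasurableSet S) : (ν n).map (fun t => (n : ℝ) + t) S ≤
      D * volume (S ∩ Set.Ico (n : ℝ) (n + 1)) := by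
  rw [Measure.map_apply (meas_shift n) hS]
  have h1 : MeasurableSet ((fun t : ℝ => (n : ℝ) + t) ⁻¹' S) := meas_shift n hS
  refine (h.dens n _).trans ?_
  rw [Measure.smul_apply, Measure.restrict_congr_set (Ico_ae_eq_Icc (a := (0 : ℝ)) (b := 1)).symm,
    Measure.restrict_apply h1]
  have e : (fun t : ℝ => (n : ℝ) + t) ⁻¹' S ∩ Set.Ico 0 1 =
      (fun t : ℝ => (n : ℝ) + t) ⁻¹' (S ∩ Set.Ico (n : ℝ) (n + 1)) := by
    ext t
    simp only [Set.mem_inter_iff, Set.mem_preimage, Set.mem_Ico]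
    constructor
    · rintro ⟨h1, h2, h3⟩
      exact ⟨h1, by linarith, by linarith⟩
    · rintro ⟨h1, h2, h3⟩
      exact ⟨h1, by linarith, by linarith⟩
  rw [e, measure_preimage_add]
  rfl

lemma muA_le (D : ℝ≥0) (ν : ℕ → Measure ℝ) (h : Law D ν) (A : Finset ℕ) (S : Set ℝ)
    (hS : MeasurableSet S) : muA ν A S ≤ D * volume S := by
  unfold muA
  rw [Measure.finset_sum_apply]
  calc ∑ n ∈ A, (ν n).map (fun t => (n : ℝ) + t) S ≤
      ∑ n ∈ A, D * volume (S ∩ Set.Ico (n : ℝ) (n + 1)) :=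
        Finset.sum_le_sum fun n _ => nu_le D ν h n S hS
    _ = D * volume (⋃ n ∈ A, S ∩ Set.Ico (n : ℝ) (n + 1)) := by
        rw [← Finset.mul_sum, measure_biUnion_finset]
        · intro n _ m _ hnm
          rw [Function.onFun, Set.disjoint_left]
          rintro x ⟨_, hx1, hx2⟩ ⟨_, hx3, hx4⟩
          apply hnm
          have h1 : (n : ℝ) < m + 1 := by linarith
          have h2 : (m : ℝ) < n + 1 := by linarith
          have h3 : n < m + 1 := by exact_mod_cast h1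
          have h4 : m < n + 1 := by exact_mod_cast h2
          omega
        · intro n _
          exact hS.inter measurableSet_Ico
    _ ≤ D * volume S := by
        gcongr
        exact Set.iUnion₂_subset fun n _ => Set.inter_subset_left

lemma muA_small (D : ℝ≥0) (ν : ℕ → Measure ℝ) (h : Law D ν) (A : Finset ℕ)
    (hA : ∀ n ∈ A, 1 ≤ n) : muA ν A (Set.Iio 1) = 0 := by
  unfold muA
  rw [Measure.finset_sum_apply]
  refine Finset.sum_eq_zero fun n hn => ?_
  refine le_antisymm ((nu_le D ν h n _ measurableSet_Iio).trans ?_) zero_le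
  have e : Set.Iio (1 : ℝ) ∩ Set.Ico (n : ℝ) (n + 1) = ∅ := by
    ext x
    simp only [Set.mem_inter_iff, Set.mem_Iio, Set.mem_Ico, Set.mem_empty_iff_false, iff_false,
      not_and]
    intro h1 h2
    have h3 : (1 : ℝ) ≤ n := by exact_mod_cast hA n hn
    linarith
  rw [e, measure_empty, mul_zero]

lemma prod_le (D : ℝ≥0) (μ : Measure ℝ) [IsFiniteMeasure μ]
    (h1 : ∀ S, MeasurableSet S → μ S ≤ D * volume S) (h2 : μ (Set.Iio 1) = 0) :
    (μ.prod μ) {p : ℝ × ℝ | |p.1 ^ 2 - p.2 ^ 2| < 1} ≤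
      ∫⁻ x, D * ENNReal.ofReal (2 / x) ∂μ := by
  have hm : MeasurableSet {p : ℝ × ℝ | |p.1 ^ 2 - p.2 ^ 2| < 1} := by
    apply measurableSet_lt
    · fun_prop
    · fun_prop
  rw [Measure.prod_apply hm]
  have hae : ∀ᵐ x ∂μ, 1 ≤ x := by
    rw [ae_iff]
    refine measure_mono_null ?_ h2
    intro x hx
    simpa using hx
  refine lintegral_mono_ae ?_
  filter_upwards [hae] with x hx
  have e1 : μ (Prod.mk x ⁻¹' {p : ℝ × ℝ | |p.1 ^ 2 - p.2 ^ 2| < 1}) ≤
      μ (Metric.ball x (1 / x)) := by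
    calc μ (Prod.mk x ⁻¹' {p : ℝ × ℝ | |p.1 ^ 2 - p.2 ^ 2| < 1}) ≤
        μ (Metric.ball x (1 / x) ∪ Set.Iio 1) := by
          apply measure_mono
          intro y hy
          have hy' : |x ^ 2 - y ^ 2| < 1 := hy
          by_cases hy1 : y < 1
          · exact Or.inr hy1
          · left
            push Not at hy1
            rw [Metric.mem_ball, Real.dist_eq, abs_sub_comm, lt_div_iff₀ (by linarith)]
            have e2 : x ^ 2 - y ^ 2 = (x - y) * (x + y) := by ring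
            rw [e2, abs_mul, abs_of_pos (by linarith : 0 < x + y)] at hy'
            have h3 : |x - y| * x ≤ |x - y| * (x + y) := by
              apply mul_le_mul_of_nonneg_left _ (abs_nonneg _)
              linarith
            linarith
      _ ≤ μ (Metric.ball x (1 / x)) + μ (Set.Iio 1) := measure_union_le _ _
      _ = μ (Metric.ball x (1 / x)) := by rw [h2, add_zero]
  refine e1.trans ((h1 _ measurableSet_ball).trans ?_)
  rw [Real.volume_ball]
  apply le_of_eq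
  congr 2
  ring

lemma lint_le (D : ℝ≥0) (ν : ℕ → Measure ℝ) (h : Law D ν) (A : Finset ℕ)
    (hA : ∀ n ∈ A, 1 ≤ n) :
    ∫⁻ x, D * ENNReal.ofReal (2 / x) ∂(muA ν A) ≤
      ENNReal.ofReal (2 * D * ∑ n ∈ A, 1 / (n : ℝ)) := by
  unfold muA
  rw [lintegral_finsetSum_measure]
  have e : ENNReal.ofReal (2 * D * ∑ n ∈ A, 1 / (n : ℝ)) =
      ∑ n ∈ A, ENNReal.ofReal (2 * D * (1 / (n : ℝ))) := by
    rw [Finset.mul_sum, ENNReal.ofReal_sum_of_nonneg]
    intro n _
    positivity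
  rw [e]
  refine Finset.sum_le_sum fun n hn => ?_
  have hn1 : (1 : ℝ) ≤ n := by exact_mod_cast hA n hn
  rw [lintegral_map (by fun_prop) (meas_shift n)]
  have hp := h.prob n
  have hae : ∀ᵐ t ∂(ν n), 0 ≤ t := by
    rw [ae_iff]
    refine le_antisymm ((h.dens n _).trans ?_) zero_le
    rw [Measure.smul_apply, Measure.restrict_apply (by
      have : {a : ℝ | ¬ 0 ≤ a} = Set.Iio 0 := by ext; simp
      rw [this]; exact measurableSet_Iio)]
    have e2 : {a : ℝ | ¬ 0 ≤ a} ∩ Set.Icc 0 1 = ∅ := by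
      ext x
      simp only [Set.mem_inter_iff, Set.mem_Icc, Set.mem_empty_iff_false, iff_false]
      rintro ⟨h1, h2, _⟩
      exact h1 h2
    rw [e2, measure_empty, smul_zero]
  calc ∫⁻ t, D * ENNReal.ofReal (2 / ((n : ℝ) + t)) ∂(ν n) ≤
      ∫⁻ _, ENNReal.ofReal (2 * D * (1 / (n : ℝ))) ∂(ν n) := by
        refine lintegral_mono_ae ?_
        filter_upwards [hae] with t ht
        rw [← ENNReal.ofReal_coe_nnreal, ← ENNReal.ofReal_mul (NNReal.coe_nonneg D)]
        apply ENNReal.ofReal_le_ofReal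
        have h4 : 2 / ((n : ℝ) + t) ≤ 2 / n := by
          apply div_le_div_of_nonneg_left <;> linarith
        have h5 := mul_le_mul_of_nonneg_left h4 (NNReal.coe_nonneg D)
        calc (D : ℝ) * (2 / ((n : ℝ) + t)) ≤ D * (2 / n) := h5
          _ = 2 * D * (1 / n) := by ring
    _ = _ := by rw [lintegral_const, measure_univ, mul_one]

lemma norm_ee (x : ℝ) : ‖ee x‖ = 1 := by
  unfold ee
  rw [Complex.norm_exp_ofReal_mul_I]

lemma cont_ee : Continuous ee := by
  unfold ee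
  fun_prop

lemma cont_ph {k : ℕ} (α : Fin k → ℝ) : Continuous (ph α) := by
  unfold ph
  fun_prop

lemma int_ee {k : ℕ} (α : Fin k → ℝ) (μ : Measure ℝ) [IsFiniteMeasure μ] :
    Integrable (fun x => ee (ph α x)) μ := by
  refine Integrable.of_bound (C := 1) ((cont_ee.comp (cont_ph α)).aestronglyMeasurable) ?_
  exact Filter.Eventually.of_forall fun x => (norm_ee _).le

lemma sum_im (D : ℝ≥0) (ν : ℕ → Measure ℝ) (h : Law D ν) (A : Finset ℕ) {k : ℕ}
    (α : Fin k → ℝ) : ∑ n ∈ A, im ν n α = ∫ x, ee (ph α x) ∂(muA ν A) := by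
  unfold muA
  rw [integral_finsetSum_measure]
  · refine Finset.sum_congr rfl fun n _ => ?_
    have h1 := integral_map (μ := ν n) (meas_shift n).aemeasurable
      (f := fun x => ee (ph α x)) (cont_ee.comp (cont_ph α)).aestronglyMeasurable
    rw [h1]
    rfl
  · intro n _
    have := h.prob n
    exact int_ee α _

lemma core (hF : S_FJ1) (k : ℕ) (S : ℝ) (D : ℝ≥0) (hk : 2 ≤ k) (hS : 0 < S) :
    ∃ C : ℝ, 0 ≤ C ∧ ∀ ν : ℕ → Measure ℝ, Law D ν → ∀ A : Finset ℕ, (∀ n ∈ A, 1 ≤ n) →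
      ∫ α in box k S, ‖∑ n ∈ A, im ν n α‖ ^ 2 ≤ C * ∑ n ∈ A, 1 / (n : ℝ) := by
  obtain ⟨C, hC, H⟩ := hF k S hS
  refine ⟨C * (2 * D), by positivity, fun ν hν A hA => ?_⟩
  have hfin := fin_muA D ν hν A
  have h1 := H ℝ (muA ν A) (fun x j => x ^ (j.val + 1)) (by fun_prop)
  have e : ∀ α : Fin k → ℝ, ∑ n ∈ A, im ν n α =
      ∫ y, ee (∑ j, α j * y ^ (j.val + 1)) ∂(muA ν A) := fun α => sum_im D ν hν A α
  simp_rw [e]
  refine h1.trans ?_
  rw [mul_assoc]
  refine mul_le_mul_of_nonneg_left ?_ hC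
  have h2 : ((muA ν A).prod (muA ν A)) {p : ℝ × ℝ | ∀ j : Fin k,
      |p.1 ^ (j.val + 1) - p.2 ^ (j.val + 1)| < 1} ≤
        ENNReal.ofReal (2 * D * ∑ n ∈ A, 1 / (n : ℝ)) := by
    refine (measure_mono ?_).trans ((prod_le D (muA ν A) (fun T hT => muA_le D ν hν A T hT)
      (muA_small D ν hν A hA)).trans (lint_le D ν hν A hA))
    intro p hp
    exact hp ⟨1, by omega⟩
  have h3 := ENNReal.toReal_mono ENNReal.ofReal_ne_top h2
  rw [ENNReal.toReal_ofReal (by positivity)] at h3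
  exact h3

lemma harm (N : ℕ) : ∑ n ∈ Finset.Icc 1 N, 1 / (n : ℝ) ≤ 2 * √(N : ℝ) := by
  induction N with
  | zero => simp
  | succ N ih =>
    rw [Finset.sum_Icc_succ_top (by omega)]
    have h0 : (0 : ℝ) ≤ N := Nat.cast_nonneg N
    have h1 := Real.sq_sqrt h0
    have h2 : √((N : ℝ) + 1) ^ 2 = N + 1 := Real.sq_sqrt (by linarith)
    have h3 := Real.sqrt_nonneg (N : ℝ)
    have h4 : 1 ≤ √((N : ℝ) + 1) := by
      rw [Real.one_le_sqrt]; linarith
    have h5 : √(N : ℝ) ≤ √((N : ℝ) + 1) := Real.sqrt_le_sqrt (by linarith)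
    push_cast
    have h6 : 1 / ((N : ℝ) + 1) ≤ 2 * (√((N : ℝ) + 1) - √(N : ℝ)) := by
      rw [div_le_iff₀ (by linarith)]
      -- (b - a) (b + a) = 1, 2 b ≥ b + a, b² ≥ b
      have h7 : (√((N : ℝ) + 1) - √(N : ℝ)) * (√((N : ℝ) + 1) + √(N : ℝ)) = 1 := by
        nlinarith
      have h8 : 0 ≤ √((N : ℝ) + 1) - √(N : ℝ) := by linarith
      have h9 : √((N : ℝ) + 1) + √(N : ℝ) ≤ 2 * ((N : ℝ) + 1) := by nlinarith
      have h10 := mul_le_mul_of_nonneg_left h9 h8
      nlinarith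
    linarith

theorem t_L2 : T_L2 := by
  intro hF k S D hk hS
  obtain ⟨C, hC, H⟩ := core hF k S D hk hS
  refine ⟨2 * C, by positivity, fun ν hν => ⟨fun n hn => ?_, fun N hN => ?_⟩⟩
  · have h1 := H ν hν {n} (by
      intro m hm
      rw [Finset.mem_singleton] at hm
      omega)
    simp only [Finset.sum_singleton] at h1
    refine h1.trans ?_
    have h2 : (0 : ℝ) ≤ 1 / n := by positivity
    have h3 : 0 ≤ C * (1 / (n : ℝ)) := mul_nonneg hC h2
    calc C * (1 / (n : ℝ)) ≤ 2 * (C * (1 / (n : ℝ))) := by linarith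
      _ = _ := by ring
  · have h1 := H ν hν (Finset.Icc 1 N) (fun m hm => (Finset.mem_Icc.1 hm).1)
    have h2 := mul_le_mul_of_nonneg_left (harm N) hC
    rw [← Real.sqrt_eq_rpow]
    calc _ ≤ _ := h1
      _ ≤ _ := h2
      _ = _ := by ring

end Pool.Agent.U810.VE.L2
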